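import Pool.Agent.Helper31.BQ.Stmts

/-!
# Row CX of BQ: the real and the complex approximation property
-/

set_option autoImplicit false

namespace Pool.Agent.Helper2.BQ

open Pool.Agent.Helper31.BQ

universe u

theorem cx_back (𝕜 : Type) [RCLike 𝕜] (E : Type u) [NormedAddCommGroup E] [NormedSpace 𝕜 E]
    [NormedSpace ℝ E] [IsScalarTower ℝ 𝕜 E] (h : APk 𝕜 E) : AP E := by
  intro K hK ε hε
  obtain ⟨T, hT, hTK⟩ := h K hK ε hε
  refine ⟨T.restrictScalars ℝ, ?_, fun x hx => hTK x hx⟩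
  have hfd : FiniteDimensional ℝ (LinearMap.range (T : E →ₗ[𝕜] E)) :=
    FiniteDimensional.trans ℝ 𝕜 (LinearMap.range (T : E →ₗ[𝕜] E))
  have he : LinearMap.range ((T.restrictScalars ℝ : E →L[ℝ] E) : E →ₗ[ℝ] E) =
      (LinearMap.range (T : E →ₗ[𝕜] E)).restrictScalars ℝ := by
    ext y
    rfl
  rw [he]
  exact hfd

theorem cx_real (𝕜 : Type) [RCLike 𝕜] (E : Type u) [NormedAddCommGroup E] [NormedSpace 𝕜 E]
    [NormedSpace ℝ E] [IsScalarTower ℝ 𝕜 E] (T : E →L[ℝ] E) (S : E → E)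
    (hS0 : Continuous S) (hadd : ∀ x y, S (x + y) = S x + S y)
    (hsm : ∀ (r : ℝ) x, S (r • x) = r • S x)
    (hI : ∀ x, S ((RCLike.I : 𝕜) • x) = (RCLike.I : 𝕜) • S x)
    (hT : FiniteDimensional ℝ (LinearMap.range (T : E →ₗ[ℝ] E)))
    (hr : ∀ x, S x ∈ Submodule.span 𝕜 (Set.range T)) :
    ∃ S' : E →L[𝕜] E, FiniteDimensional 𝕜 (LinearMap.range (S' : E →ₗ[𝕜] E)) ∧
      ∀ x, S' x = S x := by
  have hk : ∀ (c : 𝕜) (x : E), S (c • x) = c • S x := by
    intro c x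
    have h1 : ∀ y : E, c • y = (RCLike.re c) • y + (RCLike.im c) • ((RCLike.I : 𝕜) • y) := by
      intro y
      rw [RCLike.real_smul_eq_coe_smul (K := 𝕜) (RCLike.re c) y,
        RCLike.real_smul_eq_coe_smul (K := 𝕜) (RCLike.im c) _, smul_smul, ← add_smul,
        RCLike.re_add_im]
    rw [h1 x, hadd, hsm, hsm, hI, ← h1]
  let L : E →ₗ[𝕜] E :=
    { toFun := S
      map_add' := hadd
      map_smul' := hk }
  refine ⟨⟨L, hS0⟩, ?_, fun x => rfl⟩
  have hfg : (LinearMap.range (T : E →ₗ[ℝ] E)).FG := Module.Finite.iff_fg.mp hT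
  obtain ⟨s, hs⟩ := hfg
  have hle : LinearMap.range L ≤ Submodule.span 𝕜 (s : Set E) := by
    rintro y ⟨x, rfl⟩
    have h2 : Set.range T ⊆ Submodule.span 𝕜 (s : Set E) := by
      rintro z ⟨w, rfl⟩
      have h3 : T w ∈ Submodule.span ℝ (s : Set E) := by
        rw [hs]
        exact ⟨w, rfl⟩
      exact Submodule.span_subset_span ℝ 𝕜 (s : Set E) h3
    exact (Submodule.span_le.mpr h2) (hr x)
  haveI : FiniteDimensional 𝕜 (Submodule.span 𝕜 (s : Set E)) :=
    FiniteDimensional.span_finset 𝕜 s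
  exact Submodule.finiteDimensional_of_le hle

theorem st_CX : ST_CX.{u} := by
  intro 𝕜 _ E _ _ _ _
  refine ⟨?_, cx_back 𝕜 E⟩
  intro h K hK ε hε
  rcases RCLike.I_eq_zero_or_im_I_eq_one (K := 𝕜) with h0 | h0
  · obtain ⟨T, hT, hTK⟩ := h K hK ε hε
    obtain ⟨S', h1, h2⟩ := cx_real 𝕜 E T T T.continuous (fun x y => map_add T x y)
      (fun r x => map_smul T r x) (fun x => by rw [h0, zero_smul, map_zero, zero_smul]) hT
      (fun x => Submodule.subset_span ⟨x, rfl⟩)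
    exact ⟨S', h1, fun x hx => by rw [h2]; exact hTK x hx⟩
  · have hI0 : (RCLike.I : 𝕜) ≠ 0 := by
      intro h1
      rw [h1, map_zero] at h0
      exact zero_ne_one h0
    have hII : (RCLike.I : 𝕜) * RCLike.I = -1 := RCLike.I_mul_I_of_nonzero hI0
    have hIn : ‖(RCLike.I : 𝕜)‖ = 1 := RCLike.norm_I_of_ne_zero hI0
    have hIIs : ∀ x : E, (RCLike.I : 𝕜) • ((RCLike.I : 𝕜) • x) = -x := by
      intro x
      rw [smul_smul, hII, neg_one_smul]
    have hKc : IsCompact (K ∪ (fun x : E => (RCLike.I : 𝕜) • x) '' K) :=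
      hK.union (hK.image (continuous_const_smul _))
    obtain ⟨T, hT, hTK⟩ := h _ hKc ε hε
    have hcomm : ∀ (r : ℝ) (c : 𝕜) (x : E), c • (r • x) = r • (c • x) := by
      intro r c x
      rw [RCLike.real_smul_eq_coe_smul (K := 𝕜) r x, RCLike.real_smul_eq_coe_smul (K := 𝕜) r _,
        smul_smul, smul_smul, mul_comm]
    obtain ⟨S', h1, h2⟩ := cx_real 𝕜 E T
      (fun x => (2 : ℝ)⁻¹ • (T x - (RCLike.I : 𝕜) • T ((RCLike.I : 𝕜) • x)))
      ((T.continuous.sub ((T.continuous.comp (continuous_const_smul _)).const_smul _)).const_smul _)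
      (by
        intro x y
        have hq : ∀ a b c d : E, (2 : ℝ)⁻¹ • ((a + b) - (c + d)) =
            (2 : ℝ)⁻¹ • (a - c) + (2 : ℝ)⁻¹ • (b - d) := by
          intro a b c d
          rw [← smul_add]
          congr 1
          abel
        beta_reduce
        rw [smul_add, map_add, map_add, smul_add]
        exact hq _ _ _ _)
      (by
        intro r x
        simp only [hcomm, map_smul]
        rw [← smul_sub, smul_comm])
      (by
        intro x
        beta_reduce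
        rw [hIIs x, hcomm, smul_sub (RCLike.I : 𝕜) (T x) _, hIIs (T ((RCLike.I : 𝕜) • x)), map_neg,
          smul_neg]
        congr 1
        abel)
      hT
      (by
        intro x
        beta_reduce
        rw [RCLike.real_smul_eq_coe_smul (K := 𝕜)]
        apply Submodule.smul_mem
        apply Submodule.sub_mem
        · exact Submodule.subset_span ⟨x, rfl⟩
        · exact Submodule.smul_mem _ _ (Submodule.subset_span ⟨_, rfl⟩))
    refine ⟨S', h1, fun x hx => ?_⟩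
    rw [h2]
    have a1 : ‖T x - x‖ < ε := hTK x (Or.inl hx)
    have a2 : ‖T ((RCLike.I : 𝕜) • x) - (RCLike.I : 𝕜) • x‖ < ε := hTK _ (Or.inr ⟨x, hx, rfl⟩)
    have a3 : (2 : ℝ)⁻¹ • (T x - (RCLike.I : 𝕜) • T ((RCLike.I : 𝕜) • x)) - x =
        (2 : ℝ)⁻¹ • ((T x - x) - (RCLike.I : 𝕜) • (T ((RCLike.I : 𝕜) • x) -
          (RCLike.I : 𝕜) • x)) := by
      have a4 : x = (2 : ℝ)⁻¹ • (x + x) := by
        rw [← two_smul ℝ x, smul_smul]
        norm_num
      conv_lhs => rw [a4]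
      rw [smul_sub (RCLike.I : 𝕜) (T ((RCLike.I : 𝕜) • x)), hIIs]
      have a5 : (2 : ℝ)⁻¹ • (x + x) = x := a4.symm
      simp only [a5]
      rw [smul_sub, smul_sub, smul_sub, smul_sub, smul_neg]
      have a6 : x = (2 : ℝ)⁻¹ • x + (2 : ℝ)⁻¹ • x := by rw [← smul_add]; exact a4
      nth_rewrite 3 [a6]
      abel
    rw [a3, norm_smul]
    have a7 : ‖(T x - x) - (RCLike.I : 𝕜) • (T ((RCLike.I : 𝕜) • x) - (RCLike.I : 𝕜) • x)‖ ≤
        ‖T x - x‖ + ‖T ((RCLike.I : 𝕜) • x) - (RCLike.I : 𝕜) • x‖ := by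
      refine (norm_sub_le _ _).trans ?_
      rw [norm_smul, hIn, one_mul]
    have a8 : ‖(2 : ℝ)⁻¹‖ = 2⁻¹ := by
      rw [Real.norm_eq_abs, abs_of_pos (by norm_num)]
    rw [a8]
    linarith

end Pool.Agent.Helper2.BQ
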