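import Pool.Agent.Helper31.BQ.Stmts3

/-!
# Row GR of BQ: approximation of the identity on null sequences
-/

set_option autoImplicit false

namespace Pool.Agent.Helper2.BQ

open Filter Topology Pool.Agent.Helper31.BQ

universe u

theorem gr_net {E : Type u} [NormedAddCommGroup E] (A : Set E) (hA : IsCompact A) (r : ℝ)
    (hr : 0 < r) : ∃ F : Finset E, (∀ y ∈ F, y ∈ A) ∧ ∀ z ∈ A, ∃ y ∈ F, ‖z - y‖ ≤ r := by
  obtain ⟨t, ht, hfin, hcov⟩ := hA.finite_cover_balls hr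
  refine ⟨hfin.toFinset, ?_, ?_⟩
  · intro y hy
    exact ht (hfin.mem_toFinset.mp hy)
  · intro z hz
    obtain ⟨y, hy⟩ := Set.mem_iUnion.mp (hcov hz)
    obtain ⟨hyt, hzy⟩ := Set.mem_iUnion.mp hy
    refine ⟨y, hfin.mem_toFinset.mpr hyt, ?_⟩
    rw [← dist_eq_norm]
    exact (Metric.mem_ball.mp hzy).le

/-- the finite nets -/
noncomputable def grF {E : Type u} [NormedAddCommGroup E] (A : {A : Set E // IsCompact A}) (k : ℕ) :
    Finset E := (gr_net A.1 A.2 ((1 / 4 : ℝ) ^ (k + 1)) (by positivity)).choose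

theorem grF_mem {E : Type u} [NormedAddCommGroup E] (A : {A : Set E // IsCompact A}) (k : ℕ) :
    ∀ y ∈ grF A k, y ∈ A.1 :=
  (gr_net A.1 A.2 ((1 / 4 : ℝ) ^ (k + 1)) (by positivity)).choose_spec.1

theorem grF_net {E : Type u} [NormedAddCommGroup E] (A : {A : Set E // IsCompact A}) (k : ℕ) :
    ∀ z ∈ A.1, ∃ y ∈ grF A k, ‖z - y‖ ≤ (1 / 4 : ℝ) ^ (k + 1) :=
  (gr_net A.1 A.2 ((1 / 4 : ℝ) ^ (k + 1)) (by positivity)).choose_spec.2

/-- the successive compact sets -/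
noncomputable def grK {E : Type u} [NormedAddCommGroup E] (K : {A : Set E // IsCompact A}) :
    ℕ → {A : Set E // IsCompact A}
  | 0 => K
  | k + 1 => ⟨(fun p : E × E => p.1 - p.2) '' ((grK K k).1 ×ˢ (grF (grK K k) k : Set E)) ∩
      Metric.closedBall 0 ((1 / 4 : ℝ) ^ (k + 1)),
      (((grK K k).2.prod (grF (grK K k) k).finite_toSet.isCompact).image
        (continuous_fst.sub continuous_snd)).inter_right Metric.isClosed_closedBall⟩

theorem grK_norm {E : Type u} [NormedAddCommGroup E] (K : {A : Set E // IsCompact A}) (k : ℕ)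
    (z : E) (hz : z ∈ (grK K (k + 1)).1) : ‖z‖ ≤ (1 / 4 : ℝ) ^ (k + 1) :=
  mem_closedBall_zero_iff.mp hz.2

theorem grK_step {E : Type u} [NormedAddCommGroup E] (K : {A : Set E // IsCompact A}) (k : ℕ)
    (z : E) (hz : z ∈ (grK K k).1) : ∃ y ∈ grF (grK K k) k, z - y ∈ (grK K (k + 1)).1 := by
  obtain ⟨y, hy, hzy⟩ := grF_net (grK K k) k z hz
  refine ⟨y, hy, ⟨⟨(z, y), ⟨hz, hy⟩, rfl⟩, ?_⟩⟩
  exact mem_closedBall_zero_iff.mpr hzy

theorem st_GR : ST_GR.{u} := by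
  intro E _ _ _ h K hK ε hε
  let K0 : {A : Set E // IsCompact A} := ⟨K, hK⟩
  let ι : Type u := Σ k : ℕ, {y : E // y ∈ grF (grK K0 k) k}
  let f : ι → E := fun i => (2 : ℝ) ^ i.1 • (i.2 : E)
  obtain ⟨e, he⟩ := Countable.exists_injective_nat ι
  have hfn : ∀ i : ι, 1 ≤ i.1 → ‖f i‖ ≤ (1 / 2 : ℝ) ^ i.1 := by
    rintro ⟨k, y, hy⟩ hk
    change 1 ≤ k at hk
    obtain ⟨m, rfl⟩ : ∃ m, k = m + 1 := ⟨k - 1, by omega⟩
    have h1 : ‖y‖ ≤ (1 / 4 : ℝ) ^ (m + 1) := grK_norm K0 m y (grF_mem _ _ y hy)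
    change ‖(2 : ℝ) ^ (m + 1) • y‖ ≤ (1 / 2 : ℝ) ^ (m + 1)
    rw [norm_smul, norm_pow, Real.norm_eq_abs, abs_of_pos (by norm_num : (0 : ℝ) < 2)]
    calc (2 : ℝ) ^ (m + 1) * ‖y‖ ≤ (2 : ℝ) ^ (m + 1) * (1 / 4 : ℝ) ^ (m + 1) :=
          mul_le_mul_of_nonneg_left h1 (by positivity)
      _ = (1 / 2 : ℝ) ^ (m + 1) := by
          rw [← mul_pow]
          norm_num
  let x : ℕ → E := Function.extend e f (fun _ => 0)
  have hxe : ∀ i, x (e i) = f i := fun i => he.extend_apply f _ i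
  have hx : Tendsto x atTop (𝓝 0) := by
    rw [← Nat.cofinite_eq_atTop, Metric.tendsto_nhds]
    intro δ hδ
    obtain ⟨N, hN⟩ := exists_pow_lt_of_lt_one hδ (by norm_num : (1 / 2 : ℝ) < 1)
    rw [Filter.eventually_cofinite]
    have hfin : (Set.range (fun p : (Σ k : Fin (N + 1), {y : E // y ∈ grF (grK K0 k) k}) =>
        e (⟨(p.1 : ℕ), p.2⟩ : ι))).Finite := Set.finite_range _
    refine hfin.subset ?_
    intro n hn
    change ¬ dist (x n) 0 < δ at hn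
    rw [dist_zero_right] at hn
    by_cases hr : ∃ i, e i = n
    · obtain ⟨i, rfl⟩ := hr
      rw [hxe] at hn
      have hi : i.1 < N + 1 := by
        by_contra hcon
        apply hn
        have h1 : 1 ≤ i.1 := by omega
        refine (hfn i h1).trans_lt (lt_of_le_of_lt ?_ hN)
        exact pow_le_pow_of_le_one (by norm_num) (by norm_num) (by omega)
      exact ⟨⟨⟨i.1, hi⟩, i.2⟩, rfl⟩
    · exfalso
      apply hn
      have : x n = 0 := Function.extend_apply' f (fun _ => (0 : E)) n hr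
      rw [this, norm_zero]
      exact hδ
  obtain ⟨T, hT, hTx⟩ := h x hx (ε / 4) (by positivity)
  refine ⟨T, hT, ?_⟩
  intro z0 hz0
  have hy : ∀ k, ∀ y ∈ grF (grK K0 k) k, ‖T y - y‖ ≤ ε / 4 * (1 / 2 : ℝ) ^ k := by
    intro k y hy
    have h1 := hTx (e (⟨k, y, hy⟩ : ι))
    rw [hxe] at h1
    change ‖T ((2 : ℝ) ^ k • y) - (2 : ℝ) ^ k • y‖ ≤ ε / 4 at h1
    rw [map_smul, ← smul_sub, norm_smul, norm_pow, Real.norm_eq_abs,
      abs_of_pos (by norm_num : (0 : ℝ) < 2)] at h1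
    have h2 : (0 : ℝ) < 2 ^ k := by positivity
    rw [one_div, inv_pow, ← div_eq_mul_inv, le_div_iff₀ h2]
    linarith
  have hind : ∀ k, ∃ z ∈ (grK K0 k).1, ‖(T z0 - z0) - (T z - z)‖ ≤
      ε / 4 * ∑ i ∈ Finset.range k, (1 / 2 : ℝ) ^ i := by
    intro k
    induction k with
    | zero =>
      refine ⟨z0, hz0, ?_⟩
      rw [sub_self, norm_zero, Finset.sum_range_zero, mul_zero]
    | succ k ih =>
      obtain ⟨z, hz, hzn⟩ := ih
      obtain ⟨y, hyF, hzy⟩ := grK_step K0 k z hz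
      refine ⟨z - y, hzy, ?_⟩
      have e1 : (T z0 - z0) - (T (z - y) - (z - y)) = ((T z0 - z0) - (T z - z)) + (T y - y) := by
        rw [map_sub]
        abel
      rw [e1, Finset.sum_range_succ, mul_add]
      exact (norm_add_le _ _).trans (add_le_add hzn (hy k y hyF))
  have hsum : ∀ k, ∑ i ∈ Finset.range k, (1 / 2 : ℝ) ^ i ≤ 2 := by
    intro k
    have h1 := sum_geometric_two_le k
    exact h1
  have hb : ∀ k : ℕ, ‖T z0 - z0‖ ≤ ε / 2 + (‖T‖ + 1) * (1 / 4 : ℝ) ^ (k + 1) := by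
    intro k
    obtain ⟨z, hz, hzn⟩ := hind (k + 1)
    have h1 := grK_norm K0 k z hz
    have h2 : ‖T z - z‖ ≤ (‖T‖ + 1) * (1 / 4 : ℝ) ^ (k + 1) := by
      calc ‖T z - z‖ ≤ ‖T z‖ + ‖z‖ := norm_sub_le _ _
        _ ≤ ‖T‖ * ‖z‖ + ‖z‖ := add_le_add (T.le_opNorm z) le_rfl
        _ = (‖T‖ + 1) * ‖z‖ := by ring
        _ ≤ (‖T‖ + 1) * (1 / 4 : ℝ) ^ (k + 1) := mul_le_mul_of_nonneg_left h1 (by positivity)
    have h3 : ε / 4 * ∑ i ∈ Finset.range (k + 1), (1 / 2 : ℝ) ^ i ≤ ε / 2 := by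
      have := mul_le_mul_of_nonneg_left (hsum (k + 1)) (by positivity : 0 ≤ ε / 4)
      linarith
    calc ‖T z0 - z0‖ = ‖((T z0 - z0) - (T z - z)) + (T z - z)‖ := by
          congr 1
          abel
      _ ≤ ‖(T z0 - z0) - (T z - z)‖ + ‖T z - z‖ := norm_add_le _ _
      _ ≤ ε / 2 + (‖T‖ + 1) * (1 / 4 : ℝ) ^ (k + 1) := add_le_add (hzn.trans h3) h2
  have hlim : Tendsto (fun k : ℕ => ε / 2 + (‖T‖ + 1) * (1 / 4 : ℝ) ^ (k + 1)) atTop
      (𝓝 (ε / 2 + (‖T‖ + 1) * 0)) := by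
    apply Tendsto.const_add
    apply Tendsto.const_mul
    exact (tendsto_pow_atTop_nhds_zero_of_lt_one (by norm_num) (by norm_num)).comp
      (tendsto_add_atTop_nat 1)
  have hle := ge_of_tendsto' hlim hb
  linarith

end Pool.Agent.Helper2.BQ
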